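import Mathlib

/-!
The rooted dyadic tree: vertices are finite binary words, the root `o` is the empty word, the
children of `w` are `false :: w` and `true :: w`, so the ancestors of `x` are its suffixes.
The extra vertex `o*` is `none`. An edge is named by its child endpoint.
-/

set_option autoImplicit false

namespace Pool.Agent.P.MP_efe325_an

/-- The parent of a vertex; the parent of the root is the extra vertex `none`. -/
def parent : List Bool → Option (List Bool)
  | [] => none
  | _ :: w => some w

/-- The gradient of `F` on the edge whose child endpoint is `z`. -/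
def grad {𝕜 : Type*} [RCLike 𝕜] (F : Option (List Bool) → 𝕜) (z : List Bool) : 𝕜 :=
  F (some z) - F (parent z)

/-- `d(a ∧ x)`: the number of edges from `o*` to the confluent of `a` and `x`, that is, the number
of common ancestors of `a` and `x`. -/
noncomputable def dmeet (a x : List Bool) : ℕ :=
  {z : List Bool | z <:+ a ∧ z <:+ x}.ncard

/-- The kernel `k_{(a,b)}(x,y)` with `p = (a,b)` and `q = (x,y)`. -/
noncomputable def kern (p q : List Bool × List Bool) : ℝ :=
  (dmeet p.1 q.1 : ℝ) + (dmeet p.2 q.2 : ℝ) - (dmeet p.1 q.2 : ℝ) - (dmeet p.2 q.1 : ℝ)

end Pool.Agent.P.MP_efe325_an
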