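import Pool.Agent.P.MP_efe325_an.Tree

/-!
The space with kernel `|k|` consists of the functions `(x,y) ↦ ∑_{α ∈ [x,y]} g α`, `g ∈ ℓ²`.
-/

set_option autoImplicit false

namespace Pool.Agent.P.MP_efe325_an

open scoped ENNReal NNReal

variable {𝕜 : Type*} [RCLike 𝕜]

/-- The feature map. -/
noncomputable def feat (𝕜 : Type*) [RCLike 𝕜] (p : List Bool × List Bool) :
    lp (fun _ : List Bool => 𝕜) 2 :=
  ∑ z ∈ geo p.1 p.2, lp.single 2 z (1 : 𝕜)

lemma inner_feat (p : List Bool × List Bool) (g : lp (fun _ : List Bool => 𝕜) 2) :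
    inner 𝕜 (feat 𝕜 p) g = ∑ z ∈ geo p.1 p.2, g z := by
  rw [feat, sum_inner]
  refine Finset.sum_congr rfl fun z _ => ?_
  rw [lp.inner_single_left]
  simp

lemma feat_apply (p : List Bool × List Bool) (z : List Bool) :
    feat 𝕜 p z = if z ∈ geo p.1 p.2 then 1 else 0 := by
  rw [feat, lp.coeFn_sum, Finset.sum_apply]
  simp only [lp.coeFn_single, Pi.single_apply]
  rw [Finset.sum_ite_eq]

lemma inner_feat_feat (p q : List Bool × List Bool) :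
    inner 𝕜 (feat 𝕜 p) (feat 𝕜 q) = ((|kern q p| : ℝ) : 𝕜) := by
  rw [inner_feat, abs_kern]
  simp only [feat_apply]
  rw [Finset.sum_ite_mem, Finset.sum_const, nsmul_eq_mul, mul_one, Finset.inter_comm]
  simp

variable {H : Type*} [NormedAddCommGroup H] [InnerProductSpace 𝕜 H] [CompleteSpace H]
  [RKHS 𝕜 H (List Bool × List Bool) 𝕜]

lemma exists_isometry (hH : ∀ p q, RKHS.kernel H p q 1 = ((|kern q p| : ℝ) : 𝕜)) :
    ∃ J : H →L[𝕜] lp (fun _ : List Bool => 𝕜) 2, (∀ G, ‖J G‖ ≤ ‖G‖) ∧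
      (∀ p, J (RKHS.kerFun H p 1) = feat 𝕜 p) ∧
      ∀ G p, G p = inner 𝕜 (feat 𝕜 p) (J G) := by
  let e : ((List Bool × List Bool) →₀ 𝕜) →ₗ[𝕜] H :=
    Finsupp.linearCombination 𝕜 (fun p => RKHS.kerFun H p (1 : 𝕜))
  let f : ((List Bool × List Bool) →₀ 𝕜) →ₗ[𝕜] lp (fun _ : List Bool => 𝕜) 2 :=
    Finsupp.linearCombination 𝕜 (feat 𝕜)
  have hk : ∀ p q, inner 𝕜 (RKHS.kerFun H p (1 : 𝕜)) (RKHS.kerFun H q (1 : 𝕜))
      = inner 𝕜 (feat 𝕜 p) (feat 𝕜 q) := by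
    intro p q
    rw [RKHS.kerFun_inner, RKHS.kerFun_apply, hH, inner_feat_feat]
    simp
  have hin : ∀ c c', inner 𝕜 (e c) (e c') = inner 𝕜 (f c) (f c') := by
    intro c c'
    simp only [e, f, Finsupp.linearCombination_apply, Finsupp.sum, sum_inner, inner_sum,
      inner_smul_left, inner_smul_right, hk]
  have hnorm : ∀ c, ‖f c‖ ≤ 1 * ‖e c‖ := by
    intro c
    rw [one_mul, norm_eq_sqrt_re_inner (𝕜 := 𝕜), norm_eq_sqrt_re_inner (𝕜 := 𝕜), hin]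
  have hdense : DenseRange e := by
    have h1 := RKHS.kerFun_dense (𝕜 := 𝕜) H
    have h2 : Submodule.span 𝕜 {y | ∃ (x : List Bool × List Bool) (v : 𝕜), RKHS.kerFun H x v = y}
        ≤ LinearMap.range e := by
      rw [Submodule.span_le]
      rintro _ ⟨x, v, rfl⟩
      refine ⟨Finsupp.single x v, ?_⟩
      simp only [e, Finsupp.linearCombination_single]
      rw [← map_smul, smul_eq_mul, mul_one]
    have h3 := Submodule.topologicalClosure_mono h2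
    rw [h1, top_le_iff, ← Submodule.dense_iff_topologicalClosure_eq_top] at h3
    exact h3
  have hJe : ∀ c, f.extendOfNorm e (e c) = f c :=
    LinearMap.extendOfNorm_eq hdense ⟨1, hnorm⟩
  have hp : ∀ p, e (Finsupp.single p 1) = RKHS.kerFun H p (1 : 𝕜) := fun p => by simp [e]
  have hp' : ∀ p, f (Finsupp.single p 1) = feat 𝕜 p := fun p => by simp [f]
  refine ⟨f.extendOfNorm e, fun G => ?_, fun p => ?_, fun G p => ?_⟩
  · simpa using LinearMap.norm_extendOfNorm_apply_le hdense 1 hnorm G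
  · rw [← hp, hJe, hp']
  · have h1 : G p = inner 𝕜 (RKHS.kerFun H p (1 : 𝕜)) G := by
      rw [RKHS.kerFun_inner]; simp
    rw [h1]
    refine hdense.induction_on (p := fun G => inner 𝕜 (RKHS.kerFun H p (1 : 𝕜)) G
      = inner 𝕜 (feat 𝕜 p) (f.extendOfNorm e G)) G (isClosed_eq (by fun_prop) (by fun_prop)) ?_
    intro c
    rw [hJe, ← hp, ← hp', hin]

lemma enorm_sq_lp (g : lp (fun _ : List Bool => 𝕜) 2) : ‖g‖ₑ ^ 2 = ∑' z, ‖g z‖ₑ ^ 2 := by
  have h := lp.hasSum_norm (p := 2) (by norm_num) g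
  simp only [ENNReal.toReal_ofNat, Real.rpow_ofNat] at h
  rw [← ofReal_norm, ← ENNReal.ofReal_pow (norm_nonneg _), ← h.tsum_eq,
    ENNReal.ofReal_tsum_of_nonneg (fun z => by positivity) h.summable]
  refine tsum_congr fun z => ?_
  rw [ENNReal.ofReal_pow (norm_nonneg _), ofReal_norm]

lemma exists_rep (hH : ∀ p q, RKHS.kernel H p q 1 = ((|kern q p| : ℝ) : 𝕜)) (G : H) :
    ∃ g : List Bool → 𝕜, ∑' z, ‖g z‖ₑ ^ 2 ≤ ‖G‖ₑ ^ 2 ∧ ∀ p, G p = ∑ z ∈ geo p.1 p.2, g z := by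
  obtain ⟨J, h1, -, h3⟩ := exists_isometry hH
  refine ⟨J G, ?_, fun p => by rw [h3, inner_feat]⟩
  rw [← enorm_sq_lp]
  gcongr
  exact enorm_le_iff_norm_le.2 (h1 G)

lemma exists_elem (hH : ∀ p q, RKHS.kernel H p q 1 = ((|kern q p| : ℝ) : 𝕜))
    (g : List Bool → 𝕜) (hg : ∑' z, ‖g z‖ₑ ^ 2 ≠ ⊤) :
    ∃ G : H, ‖G‖ₑ ^ 2 ≤ ∑' z, ‖g z‖ₑ ^ 2 ∧ ∀ p, G p = ∑ z ∈ geo p.1 p.2, g z := by
  obtain ⟨J, h1, h2, -⟩ := exists_isometry hH
  have hmem : Memℓp g 2 := by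
    apply memℓp_gen
    simp only [ENNReal.toReal_ofNat, Real.rpow_ofNat]
    have : ∑' z, ((‖g z‖₊ ^ 2 : ℝ≥0) : ℝ≥0∞) ≠ ⊤ := by simpa [enorm] using hg
    have h3 := ENNReal.tsum_coe_ne_top_iff_summable.1 this
    simpa using NNReal.summable_coe.2 h3
  let g' : lp (fun _ : List Bool => 𝕜) 2 := ⟨g, hmem⟩
  have hJ : ‖J‖ ≤ 1 := J.opNorm_le_bound zero_le_one (by simpa using h1)
  refine ⟨ContinuousLinearMap.adjoint J g', ?_, fun p => ?_⟩
  · have : ∑' z, ‖g z‖ₑ ^ 2 = ‖g'‖ₑ ^ 2 := (enorm_sq_lp g').symm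
    rw [this]
    gcongr
    refine enorm_le_iff_norm_le.2 (((ContinuousLinearMap.adjoint J).le_opNorm g').trans ?_)
    rw [LinearIsometryEquiv.norm_map]
    exact mul_le_of_le_one_left (norm_nonneg _) hJ
  · have h1 : (ContinuousLinearMap.adjoint J g') p
        = inner 𝕜 (RKHS.kerFun H p (1 : 𝕜)) (ContinuousLinearMap.adjoint J g') := by
      rw [RKHS.kerFun_inner]; simp
    rw [h1, ContinuousLinearMap.adjoint_inner_right, h2, inner_feat]

end Pool.Agent.P.MP_efe325_an
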