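import Pool.Agent.P.MP_efe325_an.Feature

/-!
The two implications.
-/

set_option autoImplicit false

namespace Pool.Agent.P.MP_efe325_an

open MeasureTheory Set Filter Topology
open scoped ENNReal NNReal

variable {𝕜 : Type*} [RCLike 𝕜] [MeasurableSpace (List Bool)]
  [DiscreteMeasurableSpace (List Bool)] {μ : Measure (List Bool)}

/-- Condition (a') with constant `C`. -/
def CondA (𝕜 : Type*) [RCLike 𝕜] (μ : Measure (List Bool))
    (C : ℝ≥0) : Prop :=
  ∀ F : Option (List Bool) → 𝕜,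
    ∫⁻ p, ‖F (some p.1) - F (some p.2)‖ₑ ^ 2 ∂(μ.prod μ) ≤ C * ∑' z, ‖grad F z‖ₑ ^ 2

lemma lower_of_vanish (φ : List Bool → 𝕜) (D : Set (List Bool)) (hφ : ∀ x, x ∉ D → φ x = 0) :
    2 * (μ Dᶜ * ∫⁻ x, ‖φ x‖ₑ ^ 2 ∂μ) ≤ ∫⁻ p, ‖φ p.1 - φ p.2‖ₑ ^ 2 ∂(μ.prod μ) := by
  have h1 : ∫⁻ p, ‖φ p.1‖ₑ ^ 2 * Dᶜ.indicator 1 p.2 ∂(μ.prod μ) = μ Dᶜ * ∫⁻ x, ‖φ x‖ₑ ^ 2 ∂μ := by
    rw [lintegral_prod_mul (f := fun x => ‖φ x‖ₑ ^ 2) (g := Dᶜ.indicator 1)
      Measurable.of_discrete.aemeasurable Measurable.of_discrete.aemeasurable,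
      lintegral_indicator_one MeasurableSet.of_discrete, mul_comm]
  have h2 : ∫⁻ p, Dᶜ.indicator 1 p.1 * ‖φ p.2‖ₑ ^ 2 ∂(μ.prod μ) = μ Dᶜ * ∫⁻ x, ‖φ x‖ₑ ^ 2 ∂μ := by
    rw [lintegral_prod_mul (g := fun x => ‖φ x‖ₑ ^ 2) (f := Dᶜ.indicator 1)
      Measurable.of_discrete.aemeasurable Measurable.of_discrete.aemeasurable,
      lintegral_indicator_one MeasurableSet.of_discrete]
  rw [two_mul]
  nth_rewrite 1 [← h1]
  rw [← h2, ← lintegral_add_left Measurable.of_discrete]
  refine lintegral_mono fun p => ?_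
  by_cases hx : p.1 ∈ D <;> by_cases hy : p.2 ∈ D
  · simp [hx, hy]
  · simp [hx, hy, hφ _ hy]
  · simp [hx, hy, hφ _ hx]
  · simp [hφ _ hx, hφ _ hy]

/-- The three components of the tree with the vertex `m` removed are light. -/
def Median (μ : Measure (List Bool)) (m : List Bool) : Prop :=
  (∀ b : Bool, μ {x | (b :: m) <:+ x} ≤ μ {x | (b :: m) <:+ x}ᶜ) ∧
    μ {x | ¬ m <:+ x} ≤ μ {x | ¬ m <:+ x}ᶜ

lemma exists_median_of_finite (hμ : μ univ ≠ ⊤) : ∃ m, Median μ m := by
  classical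
  by_cases h0 : μ univ = 0
  · have hz : ∀ s, μ s = 0 := fun s => measure_mono_null (subset_univ s) h0
    exact ⟨[], fun b => by simp [hz], by simp [hz]⟩
  -- heavy vertices have bounded length
  have hlim : Tendsto (fun n : ℕ => μ {x : List Bool | n ≤ x.length}) atTop (𝓝 0) := by
    have h := tendsto_measure_iInter_atTop (μ := μ)
      (s := fun n : ℕ => {x : List Bool | n ≤ x.length})
      (fun _ => MeasurableSet.of_discrete.nullMeasurableSet)
      (fun a b hab x hx => le_trans hab hx) ⟨0, ne_top_of_le_ne_top hμ (measure_mono (subset_univ _))⟩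
    have h' : (⋂ n : ℕ, {x : List Bool | n ≤ x.length}) = ∅ := by
      ext x
      simp only [mem_iInter, mem_ofPred_eq, mem_empty_iff_false, iff_false, not_forall, not_le]
      exact ⟨x.length + 1, Nat.lt_succ_self _⟩
    rw [h', measure_empty] at h
    exact h
  have hhalf : 0 < μ univ / 2 := ENNReal.half_pos h0
  obtain ⟨N, hN⟩ := (hlim.eventually (ge_mem_nhds hhalf)).exists
  let heavy : List Bool → Prop := fun z => μ {x | z <:+ x}ᶜ < μ {x | z <:+ x}
  have hb : ∀ z, heavy z → z.length ≤ N := by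
    intro z hz
    by_contra hlt
    push Not at hlt
    have h1 : μ {x | z <:+ x} ≤ μ univ / 2 :=
      (measure_mono fun x hx => hlt.le.trans (List.IsSuffix.length_le hx)).trans hN
    have h2 : μ univ < μ univ := by
      calc μ univ = μ {x | z <:+ x} + μ {x | z <:+ x}ᶜ :=
            (measure_add_measure_compl MeasurableSet.of_discrete).symm
        _ < μ {x | z <:+ x} + μ {x | z <:+ x} :=
            ENNReal.add_lt_add_left (ne_top_of_le_ne_top hμ (measure_mono (subset_univ _))) hz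
        _ ≤ μ univ / 2 + μ univ / 2 := add_le_add h1 h1
        _ = μ univ := ENNReal.add_halves _
    exact lt_irrefl _ h2
  have hroot : heavy [] := by
    simp only [heavy, List.nil_suffix, ofPred_true, compl_univ, measure_empty]
    exact pos_iff_ne_zero.2 h0
  let P : ℕ → Prop := fun n => ∃ z, heavy z ∧ z.length = n
  obtain ⟨m, hm, hml⟩ : P (Nat.findGreatest P N) :=
    Nat.findGreatest_spec (Nat.zero_le N) ⟨[], hroot, rfl⟩
  refine ⟨m, fun b => ?_, ?_⟩
  · by_contra hlt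
    push Not at hlt
    have h1 : P (m.length + 1) := ⟨b :: m, hlt, rfl⟩
    have h2 := Nat.le_findGreatest (hb (b :: m) hlt) h1
    rw [← hml] at h2
    simp at h2
  · have : {x | ¬ m <:+ x} = {x | m <:+ x}ᶜ := rfl
    rw [this, compl_compl]
    exact le_of_lt hm

lemma exists_median {C : ℝ≥0} (hA : CondA 𝕜 μ C) : ∃ m, Median μ m := by
  classical
  by_cases hμ : μ univ = ⊤
  swap
  · exact exists_median_of_finite hμ
  have hex : ∃ x₀, μ {x₀} ≠ 0 := by
    by_contra hcon
    push Not at hcon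
    have : μ univ = 0 := by
      rw [← iUnion_of_singleton]
      exact measure_iUnion_null hcon
    rw [this] at hμ
    exact ENNReal.zero_ne_top hμ
  obtain ⟨x₀, hx₀⟩ := hex
  let F : Option (List Bool) → 𝕜 := fun o => if o = some x₀ then 1 else 0
  have hE : ∑' z, ‖grad F z‖ₑ ^ 2 ≠ ⊤ := by
    rw [tsum_eq_sum (s := {x₀, false :: x₀, true :: x₀})]
    · exact (ENNReal.sum_lt_top.2 fun z _ => ENNReal.pow_lt_top enorm_lt_top).ne
    · intro z hz
      simp only [Finset.mem_insert, Finset.mem_singleton, not_or] at hz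
      have h1 : F (some z) = 0 := by simp [F, hz.1]
      have h2 : F (parent z) = 0 := by
        cases z with
        | nil => simp [F, parent]
        | cons b w =>
          have : w ≠ x₀ := by
            rintro rfl
            cases b
            · exact hz.2.1 rfl
            · exact hz.2.2 rfl
          simp [F, parent, this]
      simp [grad, h1, h2]
  have h1 := (lower_of_vanish (μ := μ) (fun x => F (some x)) {x₀}
    (fun x hx => by simpa [F] using hx)).trans (hA F)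
  have h2 : μ {x₀} ≤ ∫⁻ x, ‖F (some x)‖ₑ ^ 2 ∂μ := by
    rw [← lintegral_indicator_one MeasurableSet.of_discrete]
    refine lintegral_mono fun x => ?_
    by_cases hx : x = x₀ <;> simp [F, hx]
  have h3 : μ {x₀}ᶜ ≠ ⊤ := by
    intro htop
    rw [htop, ENNReal.top_mul (fun h => hx₀ (le_zero_iff.1 (h ▸ h2))),
      ENNReal.mul_top two_ne_zero, top_le_iff] at h1
    exact ENNReal.mul_ne_top ENNReal.coe_ne_top hE h1
  have h4 : μ {x₀} = ⊤ := by
    by_contra hne
    rw [← measure_add_measure_compl (s := {x₀}) MeasurableSet.of_discrete] at hμ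
    exact ENNReal.add_ne_top.2 ⟨hne, h3⟩ hμ
  have h5 : ∀ D : Set (List Bool), x₀ ∉ D → μ D ≤ μ Dᶜ := by
    intro D hD
    have : μ {x₀} ≤ μ Dᶜ := measure_mono (singleton_subset_iff.2 hD)
    rw [h4, top_le_iff] at this
    rw [this]
    exact le_top
  exact ⟨x₀, fun b => h5 _ (not_cons_suffix b x₀), h5 _ (fun h => h List.suffix_rfl)⟩

/-- The Hardy operator rooted at `m`. -/
noncomputable def hardy (m : List Bool) (h : List Bool → ℝ≥0) (x : List Bool) : ℝ≥0 :=
  ∑ z ∈ geo m x, h z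

omit [MeasurableSpace (List Bool)] [DiscreteMeasurableSpace (List Bool)] in
lemma sum_geo_le (m x y : List Bool) (h : List Bool → ℝ≥0) :
    ∑ z ∈ geo x y, h z ≤ hardy m h x + hardy m h y := by
  refine (Finset.sum_le_sum_of_subset (geo_subset m x y)).trans ?_
  rw [hardy, hardy, ← Finset.sum_union_inter]
  exact le_self_add

lemma light_bound {C : ℝ≥0} (hA : CondA 𝕜 μ C) (m : List Bool) (h : List Bool → ℝ≥0)
    (D : Set (List Bool)) (hD : μ D ≤ μ Dᶜ) (hv : ∀ x, x ∉ D → hardy m h x = 0) :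
    μ univ * ∫⁻ x, (hardy m h x : ℝ≥0∞) ^ 2 ∂μ ≤ C * ∑' z, (h z : ℝ≥0∞) ^ 2 := by
  let F : Option (List Bool) → 𝕜 := fun o => ((hardy m h (o.getD []) : ℝ) : 𝕜)
  have hF : ∀ x, ‖F (some x)‖ₑ = hardy m h x := by
    intro x
    simp [F, enorm]
  have hg : ∀ z, ‖grad F z‖ₑ ≤ h z := by
    intro z
    cases z with
    | nil => simp [grad, parent, F]
    | cons b w =>
      have h1 := sum_geo_le w m (b :: w) h
      have h2 := sum_geo_le (b :: w) m w h
      have e1 : hardy w h (b :: w) = h (b :: w) := by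
        rw [hardy, geo_comm, geo_cons, Finset.sum_singleton]
      have e2 : hardy (b :: w) h w = h (b :: w) := by
        rw [hardy, geo_cons, Finset.sum_singleton]
      have e3 : hardy w h m = hardy m h w := by rw [hardy, hardy, geo_comm]
      have e4 : hardy (b :: w) h m = hardy m h (b :: w) := by rw [hardy, hardy, geo_comm]
      rw [e1, e3] at h1
      rw [e2, e4] at h2
      have h1' : (hardy m h (b :: w) : ℝ) ≤ hardy m h w + h (b :: w) := by exact_mod_cast h1
      have h2' : (hardy m h w : ℝ) ≤ hardy m h (b :: w) + h (b :: w) := by exact_mod_cast h2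
      have : ‖grad F (b :: w)‖ ≤ h (b :: w) := by
        simp only [grad, parent, F, Option.getD_some]
        rw [← RCLike.ofReal_sub, RCLike.norm_ofReal, abs_le]
        constructor <;> linarith
      rw [enorm_eq_nnnorm, ENNReal.coe_le_coe]
      exact_mod_cast this
  have h1 := (lower_of_vanish (μ := μ) (fun x => F (some x)) D
    (fun x hx => by simp [F, hv x hx])).trans (hA F)
  simp only [hF] at h1
  have h2 : μ univ ≤ 2 * μ Dᶜ := by
    rw [← measure_add_measure_compl (s := D) MeasurableSet.of_discrete, two_mul]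
    exact add_le_add hD le_rfl
  calc μ univ * ∫⁻ x, (hardy m h x : ℝ≥0∞) ^ 2 ∂μ
      ≤ 2 * μ Dᶜ * ∫⁻ x, (hardy m h x : ℝ≥0∞) ^ 2 ∂μ := by gcongr
    _ ≤ C * ∑' z, ‖grad F z‖ₑ ^ 2 := by rw [mul_assoc]; exact h1
    _ ≤ C * ∑' z, (h z : ℝ≥0∞) ^ 2 := by
      gcongr with z
      exact hg z

lemma hardy_bound {C : ℝ≥0} (hA : CondA 𝕜 μ C) {m : List Bool} (hm : Median μ m)
    (h : List Bool → ℝ≥0) :
    μ univ * ∫⁻ x, (hardy m h x : ℝ≥0∞) ^ 2 ∂μ ≤ C * ∑' z, (h z : ℝ≥0∞) ^ 2 := by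
  classical
  let h0 : List Bool → ℝ≥0 := fun z => if (false :: m) <:+ z then h z else 0
  let h1 : List Bool → ℝ≥0 := fun z => if (true :: m) <:+ z then h z else 0
  let h2 : List Bool → ℝ≥0 := fun z =>
    if ¬ (false :: m) <:+ z ∧ ¬ (true :: m) <:+ z then h z else 0
  have vchild : ∀ (b : Bool) (x : List Bool), ¬ (b :: m) <:+ x →
      hardy m (fun z => if (b :: m) <:+ z then h z else 0) x = 0 := by
    intro b x hx
    refine Finset.sum_eq_zero fun z hz => if_neg fun hb => ?_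
    rcases mem_geo.1 hz with ⟨hz, -⟩ | ⟨hz, -⟩
    · exact not_cons_suffix b m (hb.trans hz)
    · exact hx (hb.trans hz)
  have vup : ∀ x : List Bool, m <:+ x → hardy m h2 x = 0 := by
    intro x hx
    refine Finset.sum_eq_zero fun z hz => if_neg fun hb => ?_
    rcases mem_geo.1 hz with ⟨hz, hz'⟩ | ⟨hz, hz'⟩
    · exact hz' (hz.trans hx)
    · rcases List.suffix_or_suffix_of_suffix hz hx with h' | h'
      · exact hz' h'
      · obtain ⟨b, hb'⟩ := exists_child h' (by rintro rfl; exact hz' List.suffix_rfl)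
        cases b
        · exact hb.1 hb'
        · exact hb.2 hb'
  have b0 := light_bound hA m h0 _ (hm.1 false) (vchild false)
  have b1 := light_bound hA m h1 _ (hm.1 true) (vchild true)
  have b2 := light_bound hA m h2 _ hm.2 (fun x hx => vup x (by simpa using hx))
  have hsplit : ∀ z, h z = h0 z + h1 z + h2 z ∧
      (h z : ℝ≥0∞) ^ 2 = (h0 z : ℝ≥0∞) ^ 2 + (h1 z : ℝ≥0∞) ^ 2 + (h2 z : ℝ≥0∞) ^ 2 := by
    intro z
    by_cases c0 : (false :: m) <:+ z <;> by_cases c1 : (true :: m) <:+ z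
    · exact (not_both_children c0 c1).elim
    all_goals simp [h0, h1, h2, c0, c1]
  have hH : ∀ x, (hardy m h x : ℝ≥0∞) ^ 2 = (hardy m h0 x : ℝ≥0∞) ^ 2
      + (hardy m h1 x : ℝ≥0∞) ^ 2 + (hardy m h2 x : ℝ≥0∞) ^ 2 := by
    intro x
    have e : hardy m h x = hardy m h0 x + hardy m h1 x + hardy m h2 x := by
      simp only [hardy, ← Finset.sum_add_distrib]
      exact Finset.sum_congr rfl fun z _ => (hsplit z).1
    by_cases c0 : (false :: m) <:+ x <;> by_cases c1 : (true :: m) <:+ x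
    · exact (not_both_children c0 c1).elim
    · have e1 : hardy m h1 x = 0 := vchild true x c1
      have e2 := vup x ((List.suffix_cons _ _).trans c0)
      simp [e, e1, e2]
    · have e1 : hardy m h0 x = 0 := vchild false x c0
      have e2 := vup x ((List.suffix_cons _ _).trans c1)
      simp [e, e1, e2]
    · have e1 : hardy m h0 x = 0 := vchild false x c0
      have e2 : hardy m h1 x = 0 := vchild true x c1
      simp [e, e1, e2]
  simp only [hH, fun z => (hsplit z).2]
  rw [lintegral_add_left Measurable.of_discrete, lintegral_add_left Measurable.of_discrete,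
    ENNReal.tsum_add, ENNReal.tsum_add, mul_add, mul_add, mul_add, mul_add]
  exact add_le_add (add_le_add b0 b1) b2

variable {H : Type*} [NormedAddCommGroup H] [InnerProductSpace 𝕜 H] [CompleteSpace H]
  [RKHS 𝕜 H (List Bool × List Bool) 𝕜]

theorem condB_of_condA (hH : ∀ p q, RKHS.kernel H p q 1 = ((|kern q p| : ℝ) : 𝕜)) {C : ℝ≥0}
    (hA : CondA 𝕜 μ C) (G : H) :
    ∫⁻ p, ‖G p‖ₑ ^ 2 ∂(μ.prod μ) ≤ ((4 * C : ℝ≥0) : ℝ≥0∞) * ‖G‖ₑ ^ 2 := by
  obtain ⟨m, hm⟩ := exists_median hA
  obtain ⟨g, hg1, hg2⟩ := exists_rep hH G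
  let h : List Bool → ℝ≥0 := fun z => ‖g z‖₊
  have hb := hardy_bound hA hm h
  have hpt : ∀ p : List Bool × List Bool, ‖G p‖ₑ ^ 2
      ≤ 2 * ((hardy m h p.1 : ℝ≥0∞) ^ 2 * 1) + 2 * (1 * (hardy m h p.2 : ℝ≥0∞) ^ 2) := by
    intro p
    have h1 : ‖G p‖₊ ≤ hardy m h p.1 + hardy m h p.2 := by
      rw [hg2]
      exact (nnnorm_sum_le _ _).trans (sum_geo_le m p.1 p.2 h)
    have h2 : ‖G p‖₊ ^ 2 ≤ 2 * (hardy m h p.1 ^ 2 * 1) + 2 * (1 * hardy m h p.2 ^ 2) := by
      refine (pow_le_pow_left₀ (zero_le) h1 2).trans ?_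
      have : ((hardy m h p.1 : ℝ) + hardy m h p.2) ^ 2
          ≤ 2 * ((hardy m h p.1 : ℝ) ^ 2 * 1) + 2 * (1 * (hardy m h p.2 : ℝ) ^ 2) := by
        nlinarith [sq_nonneg ((hardy m h p.1 : ℝ) - hardy m h p.2)]
      exact_mod_cast this
    rw [enorm_eq_nnnorm]
    exact_mod_cast h2
  refine (lintegral_mono hpt).trans ?_
  rw [lintegral_add_left Measurable.of_discrete, lintegral_const_mul _ Measurable.of_discrete,
    lintegral_const_mul _ Measurable.of_discrete,
    lintegral_prod_mul (f := fun x => (hardy m h x : ℝ≥0∞) ^ 2) (g := fun _ => 1)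
      Measurable.of_discrete.aemeasurable Measurable.of_discrete.aemeasurable,
    lintegral_prod_mul (g := fun x => (hardy m h x : ℝ≥0∞) ^ 2) (f := fun _ => 1)
      Measurable.of_discrete.aemeasurable Measurable.of_discrete.aemeasurable,
    lintegral_one, mul_comm _ (μ univ), ← add_mul]
  push_cast
  rw [mul_assoc, show (2 : ℝ≥0∞) + 2 = 4 by norm_num]
  exact mul_le_mul_right (hb.trans (mul_le_mul_right hg1 _)) _

theorem condA_of_condB (hH : ∀ p q, RKHS.kernel H p q 1 = ((|kern q p| : ℝ) : 𝕜)) {C : ℝ≥0}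
    (hB : ∀ G : H, ∫⁻ p, ‖G p‖ₑ ^ 2 ∂(μ.prod μ) ≤ C * ‖G‖ₑ ^ 2) : CondA 𝕜 μ C := by
  intro F
  by_cases hE : ∑' z, ‖grad F z‖ₑ ^ 2 = ⊤
  · by_cases hC : C = 0
    · subst hC
      rw [lintegral_countable']
      refine le_of_eq_of_le (ENNReal.tsum_eq_zero.2 fun p => ?_) zero_le
      by_cases hp : p.1 = p.2
      · simp [hp]
      · have h1 := hB (RKHS.kerFun H p 1)
        rw [ENNReal.coe_zero, zero_mul, lintegral_countable', le_zero_iff,
          ENNReal.tsum_eq_zero] at h1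
        have h2 := h1 p
        rw [RKHS.kerFun_apply, hH, abs_kern, Finset.inter_self] at h2
        have h3 := (geo_nonempty hp).card_pos.ne'
        rcases mul_eq_zero.1 h2 with h | h
        · simp [h3] at h
        · simp [h]
    · rw [hE, ENNReal.mul_top (by simpa using hC)]
      exact le_top
  · have hn : ∀ z, ‖((‖grad F z‖ : ℝ) : 𝕜)‖ₑ = ‖grad F z‖ₑ := fun z => by simp [enorm]
    obtain ⟨G, hG1, hG2⟩ := exists_elem hH (fun z => ((‖grad F z‖ : ℝ) : 𝕜))
      (by simpa only [hn] using hE)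
    simp only [hn] at hG1
    refine le_trans (lintegral_mono fun p => ?_) ((hB G).trans (by gcongr))
    gcongr
    refine enorm_le_iff_norm_le.2 ((norm_sub_le_geo F p.1 p.2).trans ?_)
    rw [hG2, ← RCLike.ofReal_sum, RCLike.norm_ofReal]
    exact le_abs_self _

end Pool.Agent.P.MP_efe325_an
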