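import Pool.Agent.P.MP_efe325_an.Main

/-!
Tools for the sharp constant: the weighted distance, planar test functions of mean zero.
-/

set_option autoImplicit false

namespace Pool.Agent.P.MP_efe325_an

open MeasureTheory Set Filter Topology
open scoped ENNReal NNReal

/-- The distance with edge lengths `h`, as a real number. -/
noncomputable def dst (h : List Bool → ℝ≥0) (x y : List Bool) : ℝ := (hardy x h y : ℝ)

variable (h : List Bool → ℝ≥0)

lemma dst_nonneg (x y : List Bool) : 0 ≤ dst h x y := NNReal.coe_nonneg _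

lemma dst_self (x : List Bool) : dst h x x = 0 := by simp [dst, hardy, geo]

lemma dst_comm (x y : List Bool) : dst h x y = dst h y x := by rw [dst, dst, hardy, hardy, geo_comm]

lemma dst_tri (m x y : List Bool) : dst h x y ≤ dst h m x + dst h m y := by
  have := sum_geo_le m x y h
  unfold dst
  exact_mod_cast this

lemma dst_in {b : Bool} {m x : List Bool} (hx : (b :: m) <:+ x) :
    dst h m x = h (b :: m) + dst h (b :: m) x := by
  have hm : m <:+ x := (List.suffix_cons _ _).trans hx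
  have h1 : geo m x = insert (b :: m) (geo (b :: m) x) := by
    ext z
    simp only [Finset.mem_insert, mem_geo, List.suffix_cons_iff]
    constructor
    · rintro (⟨h1, h2⟩ | ⟨h1, h2⟩)
      · exact (h2 (h1.trans hm)).elim
      · by_cases hz : z = b :: m
        · exact Or.inl hz
        · exact Or.inr (Or.inr ⟨h1, fun h => h.elim hz h2⟩)
    · rintro (rfl | ⟨h1 | h1, h2⟩ | ⟨h1, h2⟩)
      · exact Or.inr ⟨hx, not_cons_suffix b m⟩
      · exact (h2 (h1 ▸ hx)).elim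
      · exact Or.inl ⟨h1, h2⟩
      · exact Or.inr ⟨h1, fun h => h2 (Or.inr h)⟩
  have h2 : (b :: m) ∉ geo (b :: m) x := fun hz => by
    rcases mem_geo.1 hz with ⟨-, h⟩ | ⟨-, h⟩
    · exact h hx
    · exact h List.suffix_rfl
  rw [dst, dst, hardy, hardy, h1, Finset.sum_insert h2, NNReal.coe_add]

lemma dst_out {b : Bool} {m x : List Bool} (hx : ¬ (b :: m) <:+ x) :
    dst h (b :: m) x = h (b :: m) + dst h m x := by
  have h1 : geo (b :: m) x = insert (b :: m) (geo m x) := by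
    ext z
    simp only [Finset.mem_insert, mem_geo, List.suffix_cons_iff]
    constructor
    · rintro (⟨h1 | h1, h2⟩ | ⟨h1, h2⟩)
      · exact Or.inl h1
      · exact Or.inr (Or.inl ⟨h1, h2⟩)
      · exact Or.inr (Or.inr ⟨h1, fun h => h2 (Or.inr h)⟩)
    · rintro (rfl | ⟨h1, h2⟩ | ⟨h1, h2⟩)
      · exact Or.inl ⟨Or.inl rfl, hx⟩
      · exact Or.inl ⟨Or.inr h1, h2⟩
      · exact Or.inr ⟨h1, fun h => h.elim (fun e => hx (e ▸ h1)) h2⟩
  have h2 : (b :: m) ∉ geo m x := fun hz => by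
    rcases mem_geo.1 hz with ⟨h, -⟩ | ⟨h, -⟩
    · exact not_cons_suffix b m h
    · exact hx h
  rw [dst, dst, hardy, hardy, h1, Finset.sum_insert h2, NNReal.coe_add]

lemma dst_cons (b : Bool) (w : List Bool) : dst h w (b :: w) = h (b :: w) := by
  rw [dst_in h List.suffix_rfl, dst_self, add_zero]

lemma dst_le {s : Finset (List Bool)} (hs : ∀ z, z ∉ s → h z = 0) (x y : List Bool) :
    dst h x y ≤ ∑ z ∈ s, (h z : ℝ) := by
  rw [dst, hardy, ← NNReal.coe_sum, NNReal.coe_le_coe]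
  exact Finset.sum_le_sum_of_ne_zero fun z _ hz => by
    by_contra hc
    exact hz (hs z hc)

lemma branch_lip (m : List Bool) (u v : List Bool → ℝ) (huv : ∀ x, u x ^ 2 + v x ^ 2 = 1)
    (hu : ∀ b w, w ≠ m → u (b :: w) = u w ∧ v (b :: w) = v w) (b : Bool) (w : List Bool) :
    (dst h m (b :: w) * u (b :: w) - dst h m w * u w) ^ 2
      + (dst h m (b :: w) * v (b :: w) - dst h m w * v w) ^ 2 ≤ (h (b :: w) : ℝ) ^ 2 := by
  by_cases hw : w = m
  · subst hw
    rw [dst_cons, dst_self]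
    have := huv (b :: w)
    nlinarith
  · obtain ⟨h1, h2⟩ := hu b w hw
    rw [h1, h2]
    have t1 := dst_tri h w m (b :: w)
    have t2 := dst_tri h (b :: w) m w
    rw [dst_cons, dst_comm h w m] at t1
    rw [dst_comm h (b :: w) w, dst_cons, dst_comm h (b :: w) m] at t2
    have t3 : (dst h m (b :: w) - dst h m w) ^ 2 ≤ (h (b :: w) : ℝ) ^ 2 :=
      sq_le_sq' (by linarith) (by linarith)
    calc _ = (dst h m (b :: w) - dst h m w) ^ 2 * (u w ^ 2 + v w ^ 2) := by ring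
      _ ≤ _ := by rw [huv, mul_one]; exact t3

lemma unit_of_sq {a p q : ℝ} (ha : 0 ≤ a) (h : p ^ 2 + q ^ 2 = a ^ 2) :
    ∃ u v : ℝ, u ^ 2 + v ^ 2 = 1 ∧ a * u = p ∧ a * v = q := by
  rcases ha.eq_or_lt with rfl | ha
  · exact ⟨1, 0, by norm_num, by nlinarith, by nlinarith⟩
  · refine ⟨p / a, q / a, ?_, ?_, ?_⟩
    · field_simp
      exact h
    · field_simp
    · field_simp

lemma three_units {a b c : ℝ} (h1 : a ≤ b + c) (h2 : b ≤ a + c) (h3 : c ≤ a + b) :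
    ∃ u0 v0 u1 v1 u2 v2 : ℝ, u0 ^ 2 + v0 ^ 2 = 1 ∧ u1 ^ 2 + v1 ^ 2 = 1 ∧ u2 ^ 2 + v2 ^ 2 = 1 ∧
      u0 * a + u1 * b + u2 * c = 0 ∧ v0 * a + v1 * b + v2 * c = 0 := by
  have ha : 0 ≤ a := by linarith
  have hb : 0 ≤ b := by linarith
  have hc : 0 ≤ c := by linarith
  rcases hc.eq_or_lt with rfl | hc
  · exact ⟨1, 0, -1, 0, 1, 0, by norm_num, by norm_num, by norm_num, by linarith, by linarith⟩
  set p := (a ^ 2 + c ^ 2 - b ^ 2) / (2 * c) with hp
  have hp' : 2 * c * p = a ^ 2 + c ^ 2 - b ^ 2 := by rw [hp]; field_simp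
  have hle : 0 ≤ a ^ 2 - p ^ 2 := by
    have e1 : 0 ≤ (b - a + c) * (b + a - c) * ((a + c - b) * (a + c + b)) :=
      mul_nonneg (mul_nonneg (by linarith) (by linarith)) (mul_nonneg (by linarith) (by linarith))
    have e2 : (2 * c) ^ 2 * (a ^ 2 - p ^ 2)
        = (b - a + c) * (b + a - c) * ((a + c - b) * (a + c + b)) := by
      have : (2 * c) ^ 2 * (a ^ 2 - p ^ 2) = (2 * c * a) ^ 2 - (2 * c * p) ^ 2 := by ring
      rw [this, hp']; ring
    exact (mul_nonneg_iff_of_pos_left (by positivity)).1 (e2 ▸ e1)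
  have hq := Real.sq_sqrt hle
  set q := √(a ^ 2 - p ^ 2)
  obtain ⟨u0, v0, e0, e1, e2⟩ := unit_of_sq (p := p) (q := q) ha (by linarith)
  obtain ⟨u1, v1, e3, e4, e5⟩ := unit_of_sq (p := c - p) (q := -q) hb (by nlinarith)
  exact ⟨u0, v0, u1, v1, -1, 0, e0, e3, by norm_num, by linarith, by linarith⟩

variable {𝕜 : Type*} [RCLike 𝕜] [MeasurableSpace (List Bool)]
  [DiscreteMeasurableSpace (List Bool)] {μ : Measure (List Bool)}

omit [DiscreteMeasurableSpace (List Bool)] in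
lemma test_bound {C : ℝ≥0} (hA : CondA 𝕜 μ C) (φ : List Bool → ℝ) :
    ∫⁻ p, ENNReal.ofReal ((φ p.1 - φ p.2) ^ 2) ∂(μ.prod μ)
      ≤ C * ∑' z, ENNReal.ofReal ((φ z - φ z.tail) ^ 2) := by
  have key : ∀ a b : ℝ, ‖(a : 𝕜) - (b : 𝕜)‖ₑ ^ 2 = ENNReal.ofReal ((a - b) ^ 2) := by
    intro a b
    rw [← ofReal_norm, ← RCLike.ofReal_sub, RCLike.norm_ofReal,
      ← ENNReal.ofReal_pow (abs_nonneg _), sq_abs]
  have h1 := hA fun o => ((φ (o.getD []) : ℝ) : 𝕜)
  have h2 : ∀ z, ‖grad (fun o : Option (List Bool) => ((φ (o.getD []) : ℝ) : 𝕜)) z‖ₑ ^ 2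
      = ENNReal.ofReal ((φ z - φ z.tail) ^ 2) := by
    intro z
    cases z <;> exact key _ _
  simpa only [Option.getD_some, key, h2] using h1

lemma mean_zero [IsFiniteMeasure μ] (φ : List Bool → ℝ) (B : ℝ) (hφ : ∀ x, |φ x| ≤ B)
    (h0 : ∫ x, φ x ∂μ = 0) :
    ∫⁻ p, ENNReal.ofReal (φ p.1 ^ 2 + φ p.2 ^ 2) ∂(μ.prod μ)
      = ∫⁻ p, ENNReal.ofReal ((φ p.1 - φ p.2) ^ 2) ∂(μ.prod μ) := by
  have hB : 0 ≤ B := (abs_nonneg _).trans (hφ [])
  have hm : ∀ x y, |φ x * φ y| ≤ B * B := fun x y => by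
    rw [abs_mul]; exact mul_le_mul (hφ x) (hφ y) (abs_nonneg _) hB
  have hi : ∀ f g : List Bool × List Bool → List Bool,
      Integrable (fun p => φ (f p) * φ (g p)) (μ.prod μ) := fun f g =>
    Integrable.of_bound Measurable.of_discrete.aestronglyMeasurable (B * B)
      (ae_of_all _ fun p => hm _ _)
  have i1 : Integrable (fun p : List Bool × List Bool => φ p.1 ^ 2 + φ p.2 ^ 2) (μ.prod μ) := by
    simp only [sq]
    exact (hi Prod.fst Prod.fst).add (hi Prod.snd Prod.snd)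
  have i2 : Integrable (fun p : List Bool × List Bool => 2 * (φ p.1 * φ p.2)) (μ.prod μ) :=
    (hi Prod.fst Prod.snd).const_mul 2
  have e : (fun p : List Bool × List Bool => (φ p.1 - φ p.2) ^ 2)
      = fun p => φ p.1 ^ 2 + φ p.2 ^ 2 - 2 * (φ p.1 * φ p.2) := by
    ext p; ring
  have i3 : Integrable (fun p : List Bool × List Bool => (φ p.1 - φ p.2) ^ 2) (μ.prod μ) := by
    rw [e]; exact i1.sub i2
  rw [← ofReal_integral_eq_lintegral_ofReal i1 (ae_of_all _ fun p => by positivity),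
    ← ofReal_integral_eq_lintegral_ofReal i3 (ae_of_all _ fun p => by positivity), e,
    integral_sub i1 i2, integral_const_mul, integral_prod_mul φ φ, h0]
  simp

lemma pair_bound [IsFiniteMeasure μ] {C : ℝ≥0} (hA : CondA 𝕜 μ C) (φ ψ : List Bool → ℝ) (B : ℝ)
    (hφ : ∀ x, |φ x| ≤ B) (hψ : ∀ x, |ψ x| ≤ B) (h0 : ∫ x, φ x ∂μ = 0) (h1 : ∫ x, ψ x ∂μ = 0)
    (hl : ∀ b w, (φ (b :: w) - φ w) ^ 2 + (ψ (b :: w) - ψ w) ^ 2 ≤ (h (b :: w) : ℝ) ^ 2)
    (hd : ∀ x y, dst h x y ^ 2 ≤ 2 * (φ x ^ 2 + ψ x ^ 2) + 2 * (φ y ^ 2 + ψ y ^ 2)) :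
    ∫⁻ p, (hardy p.1 h p.2 : ℝ≥0∞) ^ 2 ∂(μ.prod μ) ≤ 2 * (C * ∑' z, (h z : ℝ≥0∞) ^ 2) := by
  have hpt : ∀ p : List Bool × List Bool, (hardy p.1 h p.2 : ℝ≥0∞) ^ 2
      ≤ 2 * (ENNReal.ofReal (φ p.1 ^ 2 + φ p.2 ^ 2) + ENNReal.ofReal (ψ p.1 ^ 2 + ψ p.2 ^ 2)) := by
    intro p
    rw [← ENNReal.ofReal_add (by positivity) (by positivity), ← ENNReal.ofReal_ofNat 2,
      ← ENNReal.ofReal_mul (by norm_num), ← ENNReal.ofReal_coe_nnreal,
      ← ENNReal.ofReal_pow (NNReal.coe_nonneg _)]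
    refine ENNReal.ofReal_le_ofReal ?_
    have := hd p.1 p.2
    rw [dst] at this
    linarith
  refine (lintegral_mono hpt).trans ?_
  rw [lintegral_const_mul _ Measurable.of_discrete, lintegral_add_left Measurable.of_discrete,
    mean_zero φ B hφ h0, mean_zero ψ B hψ h1]
  refine mul_le_mul_right ((add_le_add (test_bound hA φ) (test_bound hA ψ)).trans ?_) _
  rw [← mul_add, ← ENNReal.tsum_add]
  refine mul_le_mul_right (ENNReal.tsum_le_tsum fun z => ?_) _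
  cases z with
  | nil => simp
  | cons b w =>
    rw [← ENNReal.ofReal_add (by positivity) (by positivity), ← ENNReal.ofReal_coe_nnreal,
      ← ENNReal.ofReal_pow (NNReal.coe_nonneg _)]
    exact ENNReal.ofReal_le_ofReal (hl b w)

end Pool.Agent.P.MP_efe325_an
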