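import Pool.Agent.P.MP_efe325_an.SharpA

/-!
Condition (a') with constant `C` gives condition (b) with constant `2 C`: root the tree at the
barycentre of the measure for the weighted distance.
-/

set_option autoImplicit false

namespace Pool.Agent.P.MP_efe325_an

open MeasureTheory Set Filter Topology
open scoped ENNReal NNReal

/-- The sign of `x` with respect to the edge above `c`. -/
def sg (c x : List Bool) : ℝ := if c <:+ x then 1 else -1

/-- A function constant on each of the three branches at `m`. -/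
def br (m : List Bool) (a b c : ℝ) (x : List Bool) : ℝ :=
  if (false :: m) <:+ x then a else if (true :: m) <:+ x then b else c

lemma suffix_cons_of_ne {c b : Bool} {m w : List Bool} (hw : w ≠ m) :
    (c :: m) <:+ (b :: w) ↔ (c :: m) <:+ w := by
  rw [List.suffix_cons_iff]
  exact ⟨fun h => h.elim (fun e => (hw (List.cons.inj e).2.symm).elim) id, Or.inr⟩

variable (h : List Bool → ℝ≥0)

variable {𝕜 : Type*} [RCLike 𝕜] [MeasurableSpace (List Bool)]
  [DiscreteMeasurableSpace (List Bool)] {μ : Measure (List Bool)}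

lemma integrable_dst [IsFiniteMeasure μ] {B : ℝ} (hB : ∀ x y, dst h x y ≤ B) (m : List Bool)
    (u : List Bool → ℝ) (hu : ∀ x, |u x| ≤ 1) : Integrable (fun x => dst h m x * u x) μ :=
  Integrable.of_bound Measurable.of_discrete.aestronglyMeasurable B (ae_of_all _ fun x => by
    rw [Real.norm_eq_abs, abs_mul, abs_of_nonneg (dst_nonneg h m x)]
    exact (mul_le_of_le_one_right (dst_nonneg h m x) (hu x)).trans (hB m x))

omit [MeasurableSpace (List Bool)] [DiscreteMeasurableSpace (List Bool)] in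
lemma abs_sg (c x : List Bool) : |sg c x| ≤ 1 := by
  unfold sg; split_ifs <;> simp

lemma edge_case [IsFiniteMeasure μ] {C : ℝ≥0} (hA : CondA 𝕜 μ C) {B : ℝ}
    (hB : ∀ x y, dst h x y ≤ B) (b : Bool) (m : List Bool)
    (h1 : 0 < ∫ x, dst h m x * sg (b :: m) x ∂μ)
    (h2 : ∫ x, dst h (b :: m) x * sg (b :: m) x ∂μ ≤ 0) :
    ∫⁻ p, (hardy p.1 h p.2 : ℝ≥0∞) ^ 2 ∂(μ.prod μ) ≤ 2 * (C * ∑' z, (h z : ℝ≥0∞) ^ 2) := by
  have hi := integrable_dst (μ := μ) h hB m _ (abs_sg (b :: m))
  have e : ∀ x, dst h (b :: m) x * sg (b :: m) x = dst h m x * sg (b :: m) x - h (b :: m) := by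
    intro x
    by_cases hx : (b :: m) <:+ x
    · rw [dst_in h hx, sg, if_pos hx]; ring
    · rw [dst_out h hx, sg, if_neg hx]; ring
  simp only [e] at h2
  rw [integral_sub hi (integrable_const _), integral_const, smul_eq_mul] at h2
  set I := ∫ x, dst h m x * sg (b :: m) x ∂μ with hI
  have hM : 0 < μ.real univ := by
    rcases (measureReal_nonneg (μ := μ) (s := univ)).eq_or_lt with h0 | h0
    · rw [← h0] at h2; linarith
    · exact h0
  set t := I / μ.real univ with ht
  have ht0 : 0 ≤ t := by positivity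
  have ht1 : t ≤ h (b :: m) := by rw [ht, div_le_iff₀ hM]; linarith
  have hB0 : 0 ≤ B := (dst_nonneg h m m).trans (hB m m)
  refine pair_bound h hA (fun x => dst h m x * sg (b :: m) x - t) (fun _ => 0) (B + t)
    (fun x => ?_) (fun _ => by simp; positivity) ?_ (by simp) (fun c w => ?_) (fun x y => ?_)
  · have a1 := dst_nonneg h m x
    have a2 := hB m x
    rw [abs_le, sg]
    split_ifs <;> constructor <;> linarith
  · rw [integral_sub hi (integrable_const _), integral_const, smul_eq_mul, ← hI, ht]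
    field_simp
    ring
  · have := branch_lip h m (sg (b :: m)) (fun _ => 0) (fun x => by unfold sg; split_ifs <;> simp)
      (fun c w hw => ⟨by simp only [sg, suffix_cons_of_ne hw], rfl⟩) c w
    simp only [mul_zero] at this
    convert this using 3
    ring
  · have key : ∀ X Y : ℝ, dst h x y ≤ X + Y → dst h x y ^ 2 ≤ 2 * (X ^ 2 + 0 ^ 2)
        + 2 * (Y ^ 2 + 0 ^ 2) := by
      intro X Y hXY
      have := pow_le_pow_left₀ (dst_nonneg h x y) hXY 2
      nlinarith [sq_nonneg (X - Y)]
    have t1 := dst_tri h m x y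
    have t2 := dst_tri h (b :: m) x y
    by_cases hx : (b :: m) <:+ x <;> by_cases hy : (b :: m) <:+ y
    · have a1 := dst_in h hx
      have a2 := dst_in h hy
      simp only [sg, if_pos hx, if_pos hy]
      exact key _ _ (by linarith)
    · simp only [sg, if_pos hx, if_neg hy]
      have := key (dst h m x * 1 - t) (dst h m y + t) (by linarith)
      convert this using 3
      ring
    · simp only [sg, if_neg hx, if_pos hy]
      have := key (dst h m x + t) (dst h m y * 1 - t) (by linarith)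
      convert this using 3
      ring
    · simp only [sg, if_neg hx, if_neg hy]
      have := key (dst h m x + t) (dst h m y + t) (by linarith)
      convert this using 3 <;> ring

lemma vertex_case [IsFiniteMeasure μ] {C : ℝ≥0} (hA : CondA 𝕜 μ C) {B : ℝ}
    (hB : ∀ x y, dst h x y ≤ B) (m : List Bool)
    (h1 : ∀ b, ∫ x, dst h m x * sg (b :: m) x ∂μ ≤ 0)
    (h2 : 0 ≤ ∫ x, dst h m x * sg m x ∂μ) :
    ∫⁻ p, (hardy p.1 h p.2 : ℝ≥0∞) ^ 2 ∂(μ.prod μ) ≤ 2 * (C * ∑' z, (h z : ℝ≥0∞) ^ 2) := by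
  have i0 := integrable_dst (μ := μ) h hB m (br m 1 0 0) fun x => by
    unfold br; split_ifs <;> simp
  have i1 := integrable_dst (μ := μ) h hB m (br m 0 1 0) fun x => by
    unfold br; split_ifs <;> simp
  have i2 := integrable_dst (μ := μ) h hB m (br m 0 0 1) fun x => by
    unfold br; split_ifs <;> simp
  have lin : ∀ a b c : ℝ, ∫ x, dst h m x * br m a b c x ∂μ
      = a * ∫ x, dst h m x * br m 1 0 0 x ∂μ + b * ∫ x, dst h m x * br m 0 1 0 x ∂μ
        + c * ∫ x, dst h m x * br m 0 0 1 x ∂μ := by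
    intro a b c
    have i3 : Integrable (fun x => a * (dst h m x * br m 1 0 0 x)
        + b * (dst h m x * br m 0 1 0 x)) μ := (i0.const_mul a).add (i1.const_mul b)
    rw [← integral_const_mul, ← integral_const_mul, ← integral_const_mul,
      ← integral_add (i0.const_mul a) (i1.const_mul b), ← integral_add i3 (i2.const_mul c)]
    refine integral_congr_ae (ae_of_all _ fun x => ?_)
    simp only [br]
    split_ifs <;> ring
  have e0 : ∀ x, sg (false :: m) x = br m 1 (-1) (-1) x := fun x => by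
    unfold sg br; split_ifs <;> rfl
  have e1 : ∀ x, sg (true :: m) x = br m (-1) 1 (-1) x := fun x => by
    unfold sg br
    split_ifs with c1 c0
    · exact (not_both_children c0 c1).elim
    all_goals rfl
  have e2 : ∀ x, dst h m x * sg m x = dst h m x * br m 1 1 (-1) x := fun x => by
    by_cases hx : x = m
    · rw [hx, dst_self, zero_mul, zero_mul]
    unfold sg br
    split_ifs with c c0 c1 c0 c1
    · rfl
    · rfl
    · obtain ⟨b, hb⟩ := exists_child c hx
      cases b
      · exact (c0 hb).elim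
      · exact (c1 hb).elim
    · exact (c ((List.suffix_cons _ _).trans c0)).elim
    · exact (c ((List.suffix_cons _ _).trans c1)).elim
    · rfl
  have a0 := h1 false
  have a1 := h1 true
  simp only [e0, e1, e2, lin 1 (-1) (-1), lin (-1) 1 (-1), lin 1 1 (-1)] at a0 a1 h2
  obtain ⟨u0, v0, u1, v1, u2, v2, n0, n1, n2, z1, z2⟩ :=
    three_units (a := ∫ x, dst h m x * br m 1 0 0 x ∂μ) (b := ∫ x, dst h m x * br m 0 1 0 x ∂μ)
      (c := ∫ x, dst h m x * br m 0 0 1 x ∂μ) (by linarith) (by linarith) (by linarith)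
  have huv : ∀ x, br m u0 u1 u2 x ^ 2 + br m v0 v1 v2 x ^ 2 = 1 := fun x => by
    unfold br; split_ifs <;> assumption
  have hb : ∀ x (s : ℝ), s ^ 2 ≤ 1 → |dst h m x * s| ≤ B := fun x s hs => by
    rw [abs_mul, abs_of_nonneg (dst_nonneg h m x)]
    exact (mul_le_of_le_one_right (dst_nonneg h m x) ((sq_le_one_iff_abs_le_one s).1 hs)).trans
      (hB m x)
  refine pair_bound h hA (fun x => dst h m x * br m u0 u1 u2 x)
    (fun x => dst h m x * br m v0 v1 v2 x) B
    (fun x => hb x _ (by nlinarith [huv x])) (fun x => hb x _ (by nlinarith [huv x]))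
    (by rw [lin, z1]) (by rw [lin, z2])
    (branch_lip h m _ _ huv fun c w hw => by simp only [br, suffix_cons_of_ne hw, and_self])
    fun x y => ?_
  have key : ∀ x, (dst h m x * br m u0 u1 u2 x) ^ 2 + (dst h m x * br m v0 v1 v2 x) ^ 2
      = dst h m x ^ 2 := fun x => by rw [mul_pow, mul_pow, ← mul_add, huv, mul_one]
  rw [key, key]
  have := pow_le_pow_left₀ (dst_nonneg h x y) (dst_tri h m x y) 2
  nlinarith [sq_nonneg (dst h m x - dst h m y)]

lemma finite_bound [IsFiniteMeasure μ] {C : ℝ≥0} (hA : CondA 𝕜 μ C) {s : Finset (List Bool)}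
    (hs : ∀ z, z ∉ s → h z = 0) :
    ∫⁻ p, (hardy p.1 h p.2 : ℝ≥0∞) ^ 2 ∂(μ.prod μ) ≤ 2 * (C * ∑' z, (h z : ℝ≥0∞) ^ 2) := by
  classical
  have hB := dst_le h hs
  let heavy : List Bool → Prop := fun c => c = [] ∨ 0 < ∫ x, dst h c x * sg c x ∂μ
  have hb : ∀ c, heavy c → c.length ≤ s.sup List.length := by
    rintro c (rfl | hc)
    · simp
    by_contra hlt
    refine absurd hc (not_lt.2 (integral_nonpos fun x => ?_))
    by_cases hx : c <:+ x
    · have : dst h c x = 0 := by
        rw [dst, hardy, Finset.sum_eq_zero, NNReal.coe_zero]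
        intro z hz
        refine hs z fun hzs => hlt ?_
        rcases mem_geo.1 hz with ⟨a1, a2⟩ | ⟨a1, a2⟩
        · exact (a2 (a1.trans hx)).elim
        · rcases List.suffix_or_suffix_of_suffix a1 hx with a3 | a3
          · exact (a2 a3).elim
          · exact a3.length_le.trans (Finset.le_sup (f := List.length) hzs)
      simp [this]
    · simp [sg, hx, dst_nonneg]
  let P : ℕ → Prop := fun n => ∃ z, heavy z ∧ z.length = n
  obtain ⟨m, hm, hml⟩ : P (Nat.findGreatest P (s.sup List.length)) :=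
    Nat.findGreatest_spec (Nat.zero_le _) ⟨[], Or.inl rfl, rfl⟩
  have hch : ∀ b, ∫ x, dst h (b :: m) x * sg (b :: m) x ∂μ ≤ 0 := by
    intro b
    by_contra hlt
    have h0 : heavy (b :: m) := Or.inr (not_le.1 hlt)
    have h1 : P (m.length + 1) := ⟨b :: m, h0, rfl⟩
    have h2 := Nat.le_findGreatest (hb (b :: m) h0) h1
    rw [← hml] at h2
    simp at h2
  by_cases hc : ∃ b, 0 < ∫ x, dst h m x * sg (b :: m) x ∂μ
  · obtain ⟨b, hb⟩ := hc
    exact edge_case h hA hB b m hb (hch b)
  · refine vertex_case h hA hB m (fun b => not_lt.1 fun hb => hc ⟨b, hb⟩) ?_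
    rcases hm with rfl | hm
    · exact integral_nonneg fun x => by simp [sg, dst_nonneg]
    · exact hm.le

lemma dist_bound {C : ℝ≥0} (hA : CondA 𝕜 μ C) :
    ∫⁻ p, (hardy p.1 h p.2 : ℝ≥0∞) ^ 2 ∂(μ.prod μ) ≤ 2 * (C * ∑' z, (h z : ℝ≥0∞) ^ 2) := by
  classical
  by_cases hμ : μ univ = ⊤
  · obtain ⟨m, hm⟩ := exists_median hA
    have hb := hardy_bound hA hm h
    by_cases hI : ∫⁻ x, (hardy m h x : ℝ≥0∞) ^ 2 ∂μ = 0
    swap
    · rw [hμ, ENNReal.top_mul hI, top_le_iff] at hb
      rw [hb, ENNReal.mul_top two_ne_zero]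
      exact le_top
    have hpt : ∀ p : List Bool × List Bool, (hardy p.1 h p.2 : ℝ≥0∞) ^ 2
        ≤ 2 * ((hardy m h p.1 : ℝ≥0∞) ^ 2 * 1) + 2 * (1 * (hardy m h p.2 : ℝ≥0∞) ^ 2) := by
      intro p
      have := pow_le_pow_left₀ (dst_nonneg h p.1 p.2) (dst_tri h m p.1 p.2) 2
      have h2 : dst h p.1 p.2 ^ 2 ≤ 2 * (dst h m p.1 ^ 2 * 1) + 2 * (1 * dst h m p.2 ^ 2) := by
        nlinarith [sq_nonneg (dst h m p.1 - dst h m p.2)]
      unfold dst at h2
      exact_mod_cast h2
    refine (lintegral_mono hpt).trans ?_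
    rw [lintegral_add_left Measurable.of_discrete, lintegral_const_mul _ Measurable.of_discrete,
      lintegral_const_mul _ Measurable.of_discrete,
      lintegral_prod_mul (f := fun x => (hardy m h x : ℝ≥0∞) ^ 2) (g := fun _ => 1)
        Measurable.of_discrete.aemeasurable Measurable.of_discrete.aemeasurable,
      lintegral_prod_mul (g := fun x => (hardy m h x : ℝ≥0∞) ^ 2) (f := fun _ => 1)
        Measurable.of_discrete.aemeasurable Measurable.of_discrete.aemeasurable, hI]
    simp
  have : IsFiniteMeasure μ := ⟨lt_top_iff_ne_top.2 hμ⟩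
  let g : ℕ → List Bool → ℝ≥0 := fun n z => if z.length ≤ n then h z else 0
  have hg : ∀ n z, g n z ≤ h z := fun n z => by
    simp only [g]; split_ifs <;> simp
  have hmono : Monotone fun n (p : List Bool × List Bool) => (hardy p.1 (g n) p.2 : ℝ≥0∞) ^ 2 := by
    intro a b hab p
    refine pow_le_pow_left₀ zero_le (ENNReal.coe_le_coe.2 (Finset.sum_le_sum fun z _ => ?_)) 2
    simp only [g]
    split_ifs with c1 c2
    · exact le_rfl
    · exact (c2 (c1.trans hab)).elim
    all_goals simp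
  have hle : ∀ p : List Bool × List Bool, (hardy p.1 h p.2 : ℝ≥0∞) ^ 2
      ≤ ⨆ n, (hardy p.1 (g n) p.2 : ℝ≥0∞) ^ 2 := by
    intro p
    refine le_iSup_of_le (p.1.length + p.2.length) (le_of_eq ?_)
    congr 2
    refine Finset.sum_congr rfl fun z hz => (if_pos ?_).symm
    rcases mem_geo.1 hz with ⟨a, -⟩ | ⟨a, -⟩
    · exact a.length_le.trans (Nat.le_add_right _ _)
    · exact a.length_le.trans (Nat.le_add_left _ _)
  refine (lintegral_mono hle).trans ?_
  rw [lintegral_iSup (fun _ => Measurable.of_discrete) hmono]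
  refine iSup_le fun n => (finite_bound (g n) hA
    (s := (List.finite_length_le Bool n).toFinset) fun z hz => if_neg (by simpa using hz)).trans ?_
  gcongr with z
  exact hg n z

variable {H : Type*} [NormedAddCommGroup H] [InnerProductSpace 𝕜 H] [CompleteSpace H]
  [RKHS 𝕜 H (List Bool × List Bool) 𝕜]

theorem condB_two (hH : ∀ p q, RKHS.kernel H p q 1 = ((|kern q p| : ℝ) : 𝕜)) {C : ℝ≥0}
    (hA : CondA 𝕜 μ C) (G : H) :
    ∫⁻ p, ‖G p‖ₑ ^ 2 ∂(μ.prod μ) ≤ 2 * C * ‖G‖ₑ ^ 2 := by
  obtain ⟨g, hg1, hg2⟩ := exists_rep hH G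
  have hb := dist_bound (fun z => ‖g z‖₊) hA
  refine le_trans (lintegral_mono fun p => ?_) (hb.trans ?_)
  · rw [hg2, enorm_eq_nnnorm]
    exact pow_le_pow_left₀ zero_le (ENNReal.coe_le_coe.2 (nnnorm_sum_le _ _)) 2
  · rw [mul_assoc]
    exact mul_le_mul_right (mul_le_mul_right hg1 _) _

end Pool.Agent.P.MP_efe325_an
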