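import Pool.Agent.P.MP_efe325_an.SharpB

/-!
The constant `2` cannot be lowered: unit masses at the ends of the `N` teeth of a comb with long
teeth.
-/

set_option autoImplicit false

namespace Pool.Agent.P.MP_efe325_an

open MeasureTheory Set Filter Topology
open scoped ENNReal NNReal

/-- The vertex at height `j` on tooth number `i` of the comb. -/
def tooth (j i : ℕ) : List Bool := List.replicate j true ++ List.replicate i false

lemma tooth_succ (j i : ℕ) : tooth (j + 1) i = true :: tooth j i := rfl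

lemma count_of_suffix {j i : ℕ} {z : List Bool} (hz : z <:+ tooth j i) (ht : true ∈ z) :
    z.count false = i := by
  induction j with
  | zero => simpa [tooth] using hz.subset ht
  | succ j ih =>
    rw [tooth_succ, List.suffix_cons_iff] at hz
    rcases hz with rfl | hz
    · simp [tooth, List.count_replicate]
    · exact ih hz

lemma card_anc (x : List Bool) : (anc x).card = x.length + 1 := by
  induction x with
  | nil => rfl
  | cons b w ih =>
    rw [anc_cons, Finset.card_insert_of_notMem (by simpa using not_cons_suffix b w), ih,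
      List.length_cons]

/-- The edges of tooth number `i`. -/
def teeth (j i : ℕ) : Finset (List Bool) := (anc (tooth j i)).filter (true ∈ ·)

lemma card_teeth (j i : ℕ) : (teeth j i).card = j := by
  induction j with
  | zero =>
    refine Finset.card_eq_zero.2 (Finset.filter_eq_empty_iff.2 fun z hz ht => ?_)
    simpa [tooth] using (mem_anc.1 hz).subset ht
  | succ j ih =>
    rw [teeth, tooth_succ, anc_cons, Finset.filter_insert, if_pos List.mem_cons_self,
      Finset.card_insert_of_notMem, ← teeth, ih]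
    exact fun h => not_cons_suffix _ _ (mem_anc.1 (Finset.mem_filter.1 h).1)

lemma sum_sub_sq_le {𝕜 : Type*} [RCLike 𝕜] (s : Finset ℕ) (a : ℕ → 𝕜) :
    ∑ i ∈ s, ∑ j ∈ s, ‖a i - a j‖ ^ 2 ≤ 2 * s.card * ∑ i ∈ s, ‖a i‖ ^ 2 := by
  have h1 : ∑ i ∈ s, ∑ j ∈ s, RCLike.re (inner 𝕜 (a i) (a j)) = ‖∑ i ∈ s, a i‖ ^ 2 := by
    rw [← inner_self_eq_norm_sq (𝕜 := 𝕜), sum_inner, map_sum]
    exact Finset.sum_congr rfl fun i _ => by rw [inner_sum, map_sum]
  simp only [norm_sub_sq (𝕜 := 𝕜), Finset.sum_add_distrib, Finset.sum_sub_distrib,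
    ← Finset.mul_sum, h1, Finset.sum_const, nsmul_eq_mul]
  nlinarith [sq_nonneg ‖∑ i ∈ s, a i‖]

lemma comb_real (N L : ℕ) (f : List Bool → ℝ) :
    ∑ i ∈ Finset.range N, (∑ z ∈ anc (tooth L i), f z) ^ 2
      ≤ (L + N * N) * ∑ z ∈ (Finset.range N).biUnion fun i => anc (tooth L i), f z ^ 2 := by
  set U := (Finset.range N).biUnion fun i => anc (tooth L i) with hU
  let w : List Bool → ℝ := fun z => if true ∈ z then 1 else N
  have h1 : ∀ i ∈ Finset.range N, (∑ z ∈ anc (tooth L i), f z) ^ 2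
      ≤ (L + N * N) * ∑ z ∈ U, if z <:+ tooth L i then f z ^ 2 / w z else 0 := by
    intro i hi
    have hi' : (i : ℝ) + 1 ≤ N := by exact_mod_cast Finset.mem_range.1 hi
    have hi0 : (0 : ℝ) ≤ i := Nat.cast_nonneg i
    have hw : ∀ z, 0 < w z := fun z => by
      simp only [w]; split_ifs <;> linarith
    have c1 := Finset.sq_sum_div_le_sum_sq_div (anc (tooth L i)) f (g := w) fun z _ => hw z
    have c2 : ∑ z ∈ anc (tooth L i), w z ≤ L + N * N := by
      have e1 := Finset.card_filter_add_card_filter_not (s := anc (tooth L i)) (true ∈ ·)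
      rw [← teeth, card_teeth, card_anc, tooth, List.length_append, List.length_replicate,
        List.length_replicate, ← tooth] at e1
      have e2 : ((anc (tooth L i)).filter fun z => ¬ true ∈ z).card = i + 1 := by omega
      simp only [w]
      rw [Finset.sum_ite, Finset.sum_const, Finset.sum_const, ← teeth, card_teeth, e2]
      simp only [nsmul_eq_mul]
      push_cast
      nlinarith
    have c3 : ∑ z ∈ U, (if z <:+ tooth L i then f z ^ 2 / w z else 0)
        = ∑ z ∈ anc (tooth L i), f z ^ 2 / w z := by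
      rw [← Finset.sum_filter]
      refine Finset.sum_congr ?_ fun _ _ => rfl
      ext z
      simp only [Finset.mem_filter, mem_anc, hU, Finset.mem_biUnion]
      exact ⟨fun h => h.2, fun h => ⟨⟨i, hi, h⟩, h⟩⟩
    have c4 : 0 < ∑ z ∈ anc (tooth L i), w z :=
      Finset.sum_pos (fun z _ => hw z) ⟨[], by simp⟩
    rw [div_le_iff₀ c4] at c1
    rw [c3, mul_comm]
    exact c1.trans (mul_le_mul_of_nonneg_left c2
      (Finset.sum_nonneg fun z _ => div_nonneg (sq_nonneg _) (hw z).le))
  refine (Finset.sum_le_sum h1).trans ?_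
  rw [← Finset.mul_sum, Finset.sum_comm]
  refine mul_le_mul_of_nonneg_left (Finset.sum_le_sum fun z _ => ?_) (by positivity)
  rw [← Finset.sum_filter, Finset.sum_const, nsmul_eq_mul]
  by_cases ht : true ∈ z
  · have : ((Finset.range N).filter fun i => z <:+ tooth L i).card ≤ 1 :=
      Finset.card_le_one.2 fun a ha b hb =>
        (count_of_suffix (Finset.mem_filter.1 ha).2 ht).symm.trans
          (count_of_suffix (Finset.mem_filter.1 hb).2 ht)
    simp only [w, if_pos ht, div_one]
    exact mul_le_of_le_one_left (sq_nonneg _) (by exact_mod_cast this)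
  · have : (((Finset.range N).filter fun i => z <:+ tooth L i).card : ℝ) ≤ N := by
      exact_mod_cast (Finset.card_filter_le _ _).trans (Finset.card_range N).le
    simp only [w, if_neg ht]
    rw [← mul_div_assoc, mul_comm, mul_div_assoc]
    exact mul_le_of_le_one_right (sq_nonneg _) (div_le_one_of_le₀ this (Nat.cast_nonneg N))

variable {𝕜 : Type*} [RCLike 𝕜] [MeasurableSpace (List Bool)]
  [DiscreteMeasurableSpace (List Bool)]

/-- Unit masses at the ends of the teeth. -/
noncomputable def comb (N L : ℕ) : Measure (List Bool) :=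
  ∑ i ∈ Finset.range N, Measure.dirac (tooth L i)

lemma lintegral_comb (N L : ℕ) (f : List Bool × List Bool → ℝ≥0∞) :
    ∫⁻ p, f p ∂((comb N L).prod (comb N L))
      = ∑ i ∈ Finset.range N, ∑ j ∈ Finset.range N, f (tooth L i, tooth L j) := by
  rw [lintegral_prod _ Measurable.of_discrete.aemeasurable]
  simp only [comb, lintegral_finsetSum_measure, lintegral_dirac]

lemma comb_condA (N L : ℕ) : CondA 𝕜 (comb N L) (2 * N * (L + N * N)) := by
  intro F
  rw [lintegral_comb]
  refine le_trans ?_ (mul_le_mul_right (ENNReal.sum_le_tsum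
    ((Finset.range N).biUnion fun i => anc (tooth L i))) _)
  have h1 := sum_sub_sq_le (Finset.range N) fun i => F (some (tooth L i)) - F none
  have h2 := comb_real N L fun z => ‖grad F z‖
  have h3 : ∑ i ∈ Finset.range N, ‖F (some (tooth L i)) - F none‖ ^ 2
      ≤ ∑ i ∈ Finset.range N, (∑ z ∈ anc (tooth L i), ‖grad F z‖) ^ 2 :=
    Finset.sum_le_sum fun i _ => by
      rw [telescope]
      exact pow_le_pow_left₀ (norm_nonneg _) (norm_sum_le _ _) 2
  simp only [sub_sub_sub_cancel_right, Finset.card_range] at h1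
  have h4 := h1.trans (mul_le_mul_of_nonneg_left (h3.trans h2) (by positivity))
  rw [← mul_assoc] at h4
  simp only [← coe_nnnorm] at h4
  simp only [enorm_eq_nnnorm]
  exact_mod_cast h4

variable {H : Type*} [NormedAddCommGroup H] [InnerProductSpace 𝕜 H] [CompleteSpace H]
  [RKHS 𝕜 H (List Bool × List Bool) 𝕜]

lemma comb_low (hH : ∀ p q, RKHS.kernel H p q 1 = ((|kern q p| : ℝ) : 𝕜)) (N L : ℕ) {D : ℝ≥0}
    (hB : ∀ G : H, ∫⁻ p, ‖G p‖ₑ ^ 2 ∂((comb (N + 1) L).prod (comb (N + 1) L)) ≤ D * ‖G‖ₑ ^ 2) :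
    ((N + 1 : ℝ) * (N * (2 * L) ^ 2)) ≤ D * ((N + 1) * L) := by
  set T := (Finset.range (N + 1)).biUnion (teeth L) with hT
  let g : List Bool → 𝕜 := fun z => if z ∈ T then 1 else 0
  have hg : ∑' z, ‖g z‖ₑ ^ 2 ≤ (((N + 1) * L : ℕ) : ℝ≥0∞) := by
    rw [tsum_eq_sum (s := T) fun z hz => by simp [g, hz],
      Finset.sum_congr rfl (g := fun _ => 1) fun z hz => by simp [g, hz],
      Finset.sum_const, nsmul_eq_mul, mul_one, Nat.cast_le]
    refine Finset.card_biUnion_le.trans ?_
    simp [card_teeth]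
  obtain ⟨G, hG1, hG2⟩ := exists_elem hH g (ne_top_of_le_ne_top (ENNReal.natCast_ne_top _) hg)
  have h1 := (hB G).trans (mul_le_mul_right (hG1.trans hg) _)
  rw [lintegral_comb] at h1
  have h2 : ∀ i ∈ Finset.range (N + 1), ((N * (2 * L) ^ 2 : ℕ) : ℝ≥0∞)
      ≤ ∑ j ∈ Finset.range (N + 1), ‖G (tooth L i, tooth L j)‖ₑ ^ 2 := by
    intro i hi
    refine le_trans ?_ (Finset.sum_le_sum_of_subset (Finset.erase_subset i _))
    have h3 : ∀ j ∈ (Finset.range (N + 1)).erase i, (((2 * L) ^ 2 : ℕ) : ℝ≥0∞)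
        ≤ ‖G (tooth L i, tooth L j)‖ₑ ^ 2 := by
      intro j hj
      obtain ⟨hji, hj⟩ := Finset.mem_erase.1 hj
      have hd : ∀ {a b : ℕ} {z : List Bool}, a ≠ b → z ∈ teeth L a → ¬ z <:+ tooth L b :=
        fun hab hz hb => hab ((count_of_suffix (mem_anc.1 (Finset.mem_filter.1 hz).1)
          (Finset.mem_filter.1 hz).2).symm.trans (count_of_suffix hb (Finset.mem_filter.1 hz).2))
      have h4 : 2 * L ≤ (geo (tooth L i) (tooth L j) ∩ T).card := by
        have h5 : Disjoint (teeth L i) (teeth L j) := Finset.disjoint_left.2 fun z hz hz' =>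
          hd hji.symm hz (mem_anc.1 (Finset.mem_filter.1 hz').1)
        calc 2 * L = (teeth L i ∪ teeth L j).card := by
              rw [Finset.card_union_of_disjoint h5, card_teeth, card_teeth, two_mul]
          _ ≤ _ := Finset.card_le_card fun z hz => by
              rcases Finset.mem_union.1 hz with hz | hz
              · exact Finset.mem_inter.2 ⟨mem_geo.2 (Or.inl
                  ⟨mem_anc.1 (Finset.mem_filter.1 hz).1, hd hji.symm hz⟩),
                  Finset.mem_biUnion.2 ⟨i, hi, hz⟩⟩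
              · exact Finset.mem_inter.2 ⟨mem_geo.2 (Or.inr
                  ⟨mem_anc.1 (Finset.mem_filter.1 hz).1, hd hji hz⟩),
                  Finset.mem_biUnion.2 ⟨j, hj, hz⟩⟩
      rw [hG2, Finset.sum_ite_mem, Finset.sum_const, nsmul_eq_mul, mul_one, enorm_eq_nnnorm,
        RCLike.nnnorm_natCast, Nat.cast_pow]
      exact pow_le_pow_left₀ zero_le (by exact_mod_cast h4) 2
    refine le_trans (le_of_eq ?_) (Finset.sum_le_sum h3)
    rw [Finset.sum_const, Finset.card_erase_of_mem hi, Finset.card_range, nsmul_eq_mul]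
    simp
  have h6 := (Finset.sum_le_sum h2).trans h1
  rw [Finset.sum_const, Finset.card_range, nsmul_eq_mul] at h6
  have h7 : ((N + 1 : ℕ) : ℝ≥0) * ((N * (2 * L) ^ 2 : ℕ) : ℝ≥0)
      ≤ D * (((N + 1) * L : ℕ) : ℝ≥0) := by exact_mod_cast h6
  exact_mod_cast h7

theorem two_le (hH : ∀ p q, RKHS.kernel H p q 1 = ((|kern q p| : ℝ) : 𝕜)) {K : ℝ≥0}
    (hK : ∀ (μ : Measure (List Bool)) (C : ℝ≥0), CondA 𝕜 μ C →
      ∀ G : H, ∫⁻ p, ‖G p‖ₑ ^ 2 ∂(μ.prod μ) ≤ K * C * ‖G‖ₑ ^ 2) : 2 ≤ K := by
  by_contra hlt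
  have hlt' : (K : ℝ) < 2 := by exact_mod_cast not_le.1 hlt
  obtain ⟨N, hN⟩ := exists_nat_gt (2 * (K : ℝ) / (2 - K))
  rw [div_lt_iff₀ (by linarith)] at hN
  have h1 := comb_low hH N ((N + 1) ^ 3) (D := K * _) fun G => by
    rw [ENNReal.coe_mul]
    exact hK _ _ (comb_condA (N + 1) ((N + 1) ^ 3)) G
  push_cast at h1
  have h2 : (0 : ℝ) < (N + 1) ^ 7 := by positivity
  have h3 : (N + 1 : ℝ) ^ 7 * (4 * N) ≤ (N + 1) ^ 7 * (K * (2 * (N + 2))) := by
    refine le_trans (le_of_eq ?_) (h1.trans (le_of_eq ?_)) <;> ring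
  have h4 := le_of_mul_le_mul_left h3 h2
  nlinarith

end Pool.Agent.P.MP_efe325_an
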