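import Pool.Agent.P.MP_efe325_an.Defs

/-!
Geodesics in the dyadic tree.
-/

set_option autoImplicit false

namespace Pool.Agent.P.MP_efe325_an

open Finset

/-- Ancestors. -/
def anc (x : List Bool) : Finset (List Bool) := x.tails.toFinset

@[simp] lemma mem_anc {z x : List Bool} : z ∈ anc x ↔ z <:+ x := by simp [anc]

/-- Edges of the geodesic. -/
def geo (x y : List Bool) : Finset (List Bool) := symmDiff (anc x) (anc y)

lemma mem_geo {z x y : List Bool} :
    z ∈ geo x y ↔ (z <:+ x ∧ ¬ z <:+ y) ∨ (z <:+ y ∧ ¬ z <:+ x) := by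
  simp [geo, Finset.mem_symmDiff]

lemma geo_comm (x y : List Bool) : geo x y = geo y x := symmDiff_comm _ _

lemma not_cons_suffix (b : Bool) (w : List Bool) : ¬ (b :: w) <:+ w := fun h => by
  simpa using h.length_le

lemma anc_cons (b : Bool) (w : List Bool) : anc (b :: w) = insert (b :: w) (anc w) := by
  ext z; simp [List.suffix_cons_iff]

lemma geo_cons (b : Bool) (w : List Bool) : geo (b :: w) w = {b :: w} := by
  ext z
  rw [mem_geo, List.suffix_cons_iff, Finset.mem_singleton]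
  constructor
  · rintro (⟨h | h, h'⟩ | ⟨h, h'⟩)
    · exact h
    · exact absurd h h'
    · exact absurd (Or.inr h) h'
  · rintro rfl
    exact Or.inl ⟨Or.inl rfl, not_cons_suffix b w⟩

lemma geo_subset (m x y : List Bool) : geo x y ⊆ geo m x ∪ geo m y := by
  intro z
  simp only [Finset.mem_union, mem_geo]
  tauto

lemma geo_nonempty {x y : List Bool} (h : x ≠ y) : (geo x y).Nonempty := by
  by_cases hxy : x <:+ y
  · refine ⟨y, mem_geo.2 (Or.inr ⟨List.suffix_rfl, fun hyx => h ?_⟩)⟩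
    exact hxy.eq_of_length_le hyx.length_le
  · exact ⟨x, mem_geo.2 (Or.inl ⟨List.suffix_rfl, hxy⟩)⟩

lemma dmeet_eq (U : Finset (List Bool)) {a x : List Bool} (hU : anc a ⊆ U) :
    (dmeet a x : ℝ) = ∑ z ∈ U, (if z <:+ a then (1 : ℝ) else 0) * (if z <:+ x then 1 else 0) := by
  have h1 : {z : List Bool | z <:+ a ∧ z <:+ x} = ↑(U.filter fun z => z <:+ a ∧ z <:+ x) := by
    ext z
    simp only [Set.mem_ofPred_eq, Finset.coe_filter]
    exact ⟨fun h => ⟨hU (mem_anc.2 h.1), h⟩, fun h => h.2⟩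
  rw [dmeet, h1, Set.ncard_coe_finset, Finset.card_filter]
  push_cast
  refine Finset.sum_congr rfl fun z _ => ?_
  by_cases h1 : z <:+ a <;> by_cases h2 : z <:+ x <;> simp [h1, h2]

lemma abs_kern (p q : List Bool × List Bool) :
    |kern p q| = ((geo p.1 p.2 ∩ geo q.1 q.2).card : ℝ) := by
  obtain ⟨a, b⟩ := p
  obtain ⟨x, y⟩ := q
  set U := anc a ∪ anc b with hU
  let e : List Bool → ℝ := fun z =>
    ((if z <:+ a then (1 : ℝ) else 0) - (if z <:+ b then 1 else 0)) *
      ((if z <:+ x then 1 else 0) - (if z <:+ y then 1 else 0))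
  have h1 : kern (a, b) (x, y) = ∑ z ∈ U, e z := by
    simp only [kern]
    rw [dmeet_eq U Finset.subset_union_left, dmeet_eq U Finset.subset_union_right,
      dmeet_eq U Finset.subset_union_left, dmeet_eq U Finset.subset_union_right,
      ← Finset.sum_add_distrib, ← Finset.sum_sub_distrib, ← Finset.sum_sub_distrib]
    exact Finset.sum_congr rfl fun z _ => by simp only [e]; ring
  have h2 : ∀ z, |e z| = if z ∈ geo a b ∩ geo x y then 1 else 0 := by
    intro z
    simp only [e, Finset.mem_inter, mem_geo]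
    by_cases h1 : z <:+ a <;> by_cases h2 : z <:+ b <;> by_cases h3 : z <:+ x <;>
      by_cases h4 : z <:+ y <;> simp [h1, h2, h3, h4]
  have h3 : ((geo a b ∩ geo x y).card : ℝ) = ∑ z ∈ U, |e z| := by
    simp only [h2]
    rw [Finset.sum_ite_mem, Finset.sum_const, nsmul_eq_mul, mul_one]
    congr 2
    refine (Finset.inter_eq_right.2 fun z hz => ?_).symm
    have := (Finset.mem_inter.1 hz).1
    rw [mem_geo] at this
    simp only [hU, Finset.mem_union, mem_anc]
    tauto
  have hpos : ∀ z, 0 < e z → (z <:+ a ∧ ¬ z <:+ b ∧ z <:+ x ∧ ¬ z <:+ y) ∨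
      (¬ z <:+ a ∧ z <:+ b ∧ ¬ z <:+ x ∧ z <:+ y) := by
    intro z
    simp only [e]
    by_cases h1 : z <:+ a <;> by_cases h2 : z <:+ b <;> by_cases h3 : z <:+ x <;>
      by_cases h4 : z <:+ y <;> simp [h1, h2, h3, h4]
  have hneg : ∀ z, e z < 0 → (z <:+ a ∧ ¬ z <:+ b ∧ ¬ z <:+ x ∧ z <:+ y) ∨
      (¬ z <:+ a ∧ z <:+ b ∧ z <:+ x ∧ ¬ z <:+ y) := by
    intro z
    simp only [e]
    by_cases h1 : z <:+ a <;> by_cases h2 : z <:+ b <;> by_cases h3 : z <:+ x <;>
      by_cases h4 : z <:+ y <;> simp [h1, h2, h3, h4]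
  have hsign : (∀ z, 0 ≤ e z) ∨ (∀ z, e z ≤ 0) := by
    by_contra hcon
    push Not at hcon
    obtain ⟨⟨z', hz'⟩, ⟨z, hz⟩⟩ := hcon
    rcases hpos z hz with ⟨p1, p2, p3, p4⟩ | ⟨p1, p2, p3, p4⟩ <;>
      rcases hneg z' hz' with ⟨n1, n2, n3, n4⟩ | ⟨n1, n2, n3, n4⟩
    · rcases List.suffix_or_suffix_of_suffix p1 n1 with h | h
      exacts [p4 (h.trans n4), n3 (h.trans p3)]
    · rcases List.suffix_or_suffix_of_suffix p3 n3 with h | h
      exacts [p2 (h.trans n2), n1 (h.trans p1)]
    · rcases List.suffix_or_suffix_of_suffix p4 n4 with h | h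
      exacts [p1 (h.trans n1), n2 (h.trans p2)]
    · rcases List.suffix_or_suffix_of_suffix p2 n2 with h | h
      exacts [p3 (h.trans n3), n4 (h.trans p4)]
  rw [h1, h3]
  rcases hsign with h | h
  · rw [abs_of_nonneg (Finset.sum_nonneg fun z _ => h z)]
    exact Finset.sum_congr rfl fun z _ => (abs_of_nonneg (h z)).symm
  · rw [abs_of_nonpos (Finset.sum_nonpos fun z _ => h z), ← Finset.sum_neg_distrib]
    exact Finset.sum_congr rfl fun z _ => (abs_of_nonpos (h z)).symm

lemma telescope {𝕜 : Type*} [RCLike 𝕜] (F : Option (List Bool) → 𝕜) (x : List Bool) :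
    F (some x) - F none = ∑ z ∈ anc x, grad F z := by
  induction x with
  | nil => simp [anc, grad, parent]
  | cons b w ih =>
    rw [anc_cons, Finset.sum_insert (by simpa using not_cons_suffix b w), ← ih]
    simp [grad, parent]

lemma norm_sub_le_geo {𝕜 : Type*} [RCLike 𝕜] (F : Option (List Bool) → 𝕜) (x y : List Bool) :
    ‖F (some x) - F (some y)‖ ≤ ∑ z ∈ geo x y, ‖grad F z‖ := by
  have h : F (some x) - F (some y)
      = ∑ z ∈ anc x \ anc y, grad F z - ∑ z ∈ anc y \ anc x, grad F z := by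
    rw [Finset.sum_sdiff_sub_sum_sdiff, ← telescope, ← telescope]; ring
  rw [h, geo, symmDiff_def, Finset.sup_eq_union, Finset.sum_union disjoint_sdiff_sdiff]
  exact (norm_sub_le _ _).trans (add_le_add (norm_sum_le _ _) (norm_sum_le _ _))

lemma exists_child {m z : List Bool} (h : m <:+ z) (hne : z ≠ m) : ∃ b, (b :: m) <:+ z := by
  induction z with
  | nil => exact absurd (List.suffix_nil.1 h).symm hne
  | cons c w ih =>
    rcases List.suffix_cons_iff.1 h with h | h
    · exact absurd h.symm hne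
    · by_cases hw : w = m
      · exact ⟨c, by rw [hw]⟩
      · obtain ⟨b, hb⟩ := ih h hw
        exact ⟨b, hb.trans (List.suffix_cons c w)⟩

lemma not_both_children {m x : List Bool} (h0 : (false :: m) <:+ x) (h1 : (true :: m) <:+ x) :
    False := by
  rcases List.suffix_or_suffix_of_suffix h0 h1 with h | h
  · simpa using h.eq_of_length (by simp)
  · simpa using h.eq_of_length (by simp)

end Pool.Agent.P.MP_efe325_an
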